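import Pool.Agent.H33.PTH.PE

/-!
# The path lemma: abstract data

`m = k + 1`; the slot `i₁` of the polynomials is the time, the other `k` slots are the coordinates
of a unit box. `L` is the line, `E` the context (closed data: the window, the frame, the side
information, digits of the direction, …), `T / 2 ^ J` the time in the long window, `H` the label
of the long window in the frame of the box, `G` the own (static) sheet in the same frame. Heights
are in absolute units.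
-/

set_option autoImplicit false

namespace Pool.GPath

open Finset Real MvPolynomial
open Pool.Agent.H49.Ent Pool.Agent.H32.Dense Pool.STK Pool.KAF Pool.SLO Pool.SLP

variable {m : ℕ}

/-- The window number `n` of length `2 ^ (-w)`: the time is `n / 2 ^ w + τ / 2 ^ w`. -/
noncomputable def zoom (i₁ : Fin m) (w n : ℕ) (P : MvPolynomial (Fin m) ℝ) :
    MvPolynomial (Fin m) ℝ :=
  bind₁ (fun j => if j = i₁ then C ((n : ℝ) / 2 ^ w) + C (1 / 2 ^ w) * MvPolynomial.X i₁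
    else MvPolynomial.X j) P

/-- The data of the path lemma. -/
structure Dat (m : ℕ) where
  /-- the sample space -/
  Om : Type
  /-- the lines -/
  Lam : Type
  /-- the contexts -/
  Ze : Type
  [fin : Fintype Om]
  /-- the law -/
  p : Om → ℝ
  /-- the line -/
  L : Om → Lam
  /-- the context -/
  E : Om → Ze
  /-- the resolution of the time -/
  J : ℕ
  /-- the time, in units of `2 ^ (-J)` -/
  T : Om → ℕ
  /-- the label -/
  H : Lam → Ze → MvPolynomial (Fin m) ℝ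
  /-- the own sheet -/
  G : Om → MvPolynomial (Fin m) ℝ

attribute [instance] Dat.fin

namespace Dat

variable (d : Dat m) (i₁ : Fin m)

/-- The time. -/
noncomputable def tm (ω : d.Om) : ℝ := (d.T ω : ℝ) / 2 ^ d.J

/-- The number of the window. -/
def T1 (w : ℕ) (ω : d.Om) : ℕ := d.T ω / 2 ^ (d.J - w)

/-- The time in the window. -/
noncomputable def tw (w : ℕ) (ω : d.Om) : ℝ := 2 ^ w * d.tm ω - d.T1 w ω

/-- The own label. -/
def hl (ω : d.Om) : MvPolynomial (Fin m) ℝ := d.H (d.L ω) (d.E ω)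

/-- The height of the own sheet over the corner of the box, at the exact time. -/
noncomputable def g0 (ω : d.Om) : ℝ := eval (pnt i₁ 0 0 (d.tm ω)) (d.G ω)

open Classical in
/-- The shape of the own sheet at the exact time, to `P` digits. -/
noncomputable def Sh (K P : ℕ) (ω : d.Om) : (Fin m →₀ ℕ) → ℤ := fun al =>
  if al ∈ mons m K ∧ al ≠ 0 then hz P (fixt i₁ (d.tm ω) (d.G ω)) al else 0

/-- The own static box, to `P` digits. -/
noncomputable def bx (K P : ℕ) (ω : d.Om) :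
    (ℕ × d.Ze) × ℤ × ((Fin m →₀ ℕ) → ℤ) :=
  ((d.T ω, d.E ω), ⌊(2 : ℝ) ^ P * d.g0 i₁ ω⌋, d.Sh i₁ K P ω)

/-- The context of the window `w`: the label to `P` digits. -/
noncomputable def cx (w P : ℕ) (ω : d.Om) : (ℕ × ((Fin m →₀ ℕ) → ℤ)) × d.Ze :=
  ((d.T1 w ω, hz P (zoom i₁ w (d.T1 w ω) (d.hl ω))), d.E ω)

/-- The basic assumptions: degree at most `K`; `a` is the shortest window; the precisions
`(e, e + X]`; the own sheets are functions of the line, the context and the time; the label is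
within `C0 / 2 ^ (e + X)` of the own sheet on the box, at the exact time. -/
structure OK (K e X a : ℕ) (C0 : ℝ) : Prop where
  law : IsLaw d.p
  tim : ∀ ω, d.T ω < 2 ^ d.J
  hJ : a + X ≤ d.J
  degH : ∀ l z, (d.H l z).totalDegree ≤ K
  degG : ∀ ω, (d.G ω).totalDegree ≤ K
  own : ∀ ω ω', 0 < d.p ω → 0 < d.p ω' → d.L ω = d.L ω' → d.E ω = d.E ω' → d.T ω = d.T ω' →
    d.G ω = d.G ω'
  near : ∀ ω, 0 < d.p ω → ∀ b : Fin m → ℝ, (∀ j, 0 ≤ b j ∧ b j ≤ 1) → b i₁ = d.tm ω →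
    |eval b (d.G ω) - eval b (d.hl ω)| ≤ C0 / 2 ^ (e + X)

/-- **(time)** The time is full given the line and the context, up to `δ`. -/
def Tim (δ : ℝ) : Prop :=
  (d.J : ℝ) * Real.log 2 - δ ≤ CH d.p d.T (fun ω => (d.L ω, d.E ω))

/-- **(FR)** The shape of the own sheet to `e + X` digits is a function of the own static box to
`e` digits, up to `δ`. -/
def FR (K e X : ℕ) (δ : ℝ) : Prop :=
  CH d.p (d.Sh i₁ K (e + X)) (d.bx i₁ K e) ≤ δ

/-- **(rows)** The blocks of rows of the height of the own sheet are not full, on all large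
events, given the static box to `e` digits. -/
def Row (K e X : ℕ) (c κ π₀ : ℝ) : Prop :=
  ∀ j : ℕ, (j + 1) * ⌊κ * X⌋₊ ≤ X → ∀ B : d.Om → Prop, (∀ ω, B ω → 0 < d.p ω) →
    π₀ ≤ Pr d.p {ω | B ω} →
    CH (Pool.Agent.H49.Ent.cond d.p B True)
      (fun ω => ⌊(2 : ℝ) ^ (e + (j * ⌊κ * X⌋₊ + ⌊κ * X⌋₊)) * d.g0 i₁ ω⌋)
      (fun ω => (⌊(2 : ℝ) ^ (e + j * ⌊κ * X⌋₊) * d.g0 i₁ ω⌋, d.bx i₁ K e ω)) ≤
      (1 - c) * ⌊κ * X⌋₊ * Real.log 2

end Dat

/-- **The path lemma.** `x` is the mesh. -/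
def PathStmt : Prop :=
  ∀ (k K : ℕ) (C0 c ε : ℝ), 1 ≤ K → 0 ≤ C0 → 0 < c → 0 < ε →
    ∃ (κ π₀ δ ι D : ℝ) (X₀ : ℕ), 0 < κ ∧ κ ≤ 1 ∧ 0 < π₀ ∧ 0 < δ ∧ 0 < ι ∧ 0 ≤ D ∧
      ∀ (d : Dat (k + 1)) (i₁ : Fin (k + 1)) (a e x : ℕ), X₀ ≤ x →
        d.OK i₁ K e (K * x) a C0 → d.Tim (ι * x) → d.FR i₁ K e (K * x) (δ * x) →
        d.Row i₁ K e (K * x) c κ π₀ →
        CH d.p (fun ω => (hz (e + K * x) (d.hl ω), d.E ω))
          (fun ω => (d.cx i₁ a (e + K * x) ω, (d.T ω, d.E ω))) ≤ ε * a + D * x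

/-- **The path lemma, with static exactness**: `Y` is any variable which has a polynomial near the
label on the shortest window. -/
def PathYStmt : Prop :=
  ∀ (k K : ℕ) (C0 c ε : ℝ), 1 ≤ K → 0 ≤ C0 → 0 < c → 0 < ε →
    ∃ (κ π₀ δ ι D : ℝ) (X₀ : ℕ), 0 < κ ∧ κ ≤ 1 ∧ 0 < π₀ ∧ 0 < δ ∧ 0 < ι ∧ 0 ≤ D ∧
      ∀ (d : Dat (k + 1)) (i₁ : Fin (k + 1)) (a e x : ℕ) (Υ : Type) (Y : d.Om → Υ)
        (Q : Υ → MvPolynomial (Fin (k + 1)) ℝ), X₀ ≤ x →
        d.OK i₁ K e (K * x) a C0 → d.Tim (ι * x) → d.FR i₁ K e (K * x) (δ * x) →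
        d.Row i₁ K e (K * x) c κ π₀ → (∀ y, (Q y).totalDegree ≤ K) →
        (∀ ω, 0 < d.p ω → ∀ b : Fin (k + 1) → ℝ, (∀ j, 0 ≤ b j ∧ b j ≤ 1) →
          (d.T1 a ω : ℝ) / 2 ^ a ≤ b i₁ → b i₁ ≤ (d.T1 a ω + 1 : ℝ) / 2 ^ a →
          |eval b (Q (Y ω)) - eval b (d.hl ω)| ≤ C0 / 2 ^ (e + K * x)) →
        CH d.p (fun ω => (hz (e + K * x) (d.hl ω), d.E ω))
          (fun ω => (Y ω, (d.T ω, d.E ω))) ≤ ε * a + D * x

end Pool.GPath
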