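import Pool.Agent.H33.BFL.REN
import Pool.Agent.H4.BFL.JTE

/-!
# LEMMA B (pure): the own shape is a polynomial in the time

`/team-store/K_RES_helper44.md`, section 1. The own slope along the own line is a polynomial in the
time of bounded degree, the own shape is a function of the context and the time, and the position
is full given the context, the velocity and the times: then the own shape at one time is given by
the shapes at `n` reference times, by Lagrange interpolation along the lines with the velocity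
`om`. The degree in the time is less than `n`.
-/

set_option autoImplicit false

namespace Pool.GNB

open Finset Real
open Pool.Agent.H49.Ent Pool.Agent.H32.Dense Pool.STK Pool.KS3 Pool.BFL

/-- The Lagrange weight of the node `i` at the point `t`. -/
noncomputable def lw {n : ℕ} (v : Fin n → ℝ) (i : Fin n) (t : ℝ) : ℝ :=
  (Lagrange.basis Finset.univ v i).eval t

theorem lw_eq {n : ℕ} (v : Fin n → ℝ) (i : Fin n) (t : ℝ) :
    lw v i t = ∏ j ∈ univ.erase i, ((v i - v j)⁻¹ * (t - v j)) := by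
  unfold lw Lagrange.basis
  rw [Polynomial.eval_prod]
  refine Finset.prod_congr rfl fun j _ => ?_
  unfold Lagrange.basisDivisor
  simp

theorem lw_bound {n : ℕ} {v : Fin n → ℝ} {t ρ : ℝ} (hρ : 0 < ρ) (hρ1 : ρ ≤ 1) (ht : |t| ≤ 1)
    (hv : ∀ i, |v i| ≤ 1) (hs : ∀ i j, i ≠ j → ρ ≤ |v i - v j|) (i : Fin n) :
    |lw v i t| ≤ (2 / ρ) ^ n := by
  rw [lw_eq, Finset.abs_prod]
  have h1 : ∀ j ∈ univ.erase i, |(v i - v j)⁻¹ * (t - v j)| ≤ 2 / ρ := by
    intro j hj
    have hne := Finset.ne_of_mem_erase hj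
    rw [abs_mul, abs_inv, div_eq_inv_mul]
    refine mul_le_mul (inv_anti₀ hρ (hs i j fun h => hne h.symm)) ?_ (abs_nonneg _)
      (inv_nonneg.2 hρ.le)
    refine (abs_sub _ _).trans ?_
    linarith [hv j]
  have h2 : (1 : ℝ) ≤ 2 / ρ := by
    rw [le_div_iff₀ hρ]
    linarith
  calc ∏ j ∈ univ.erase i, |(v i - v j)⁻¹ * (t - v j)| ≤ ∏ _j ∈ univ.erase i, (2 / ρ) :=
        Finset.prod_le_prod (fun j _ => abs_nonneg _) h1
    _ = (2 / ρ) ^ (univ.erase i).card := by rw [Finset.prod_const]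
    _ ≤ (2 / ρ) ^ n := by
        refine pow_le_pow_right₀ h2 ?_
        refine (Finset.card_le_univ _).trans ?_
        simp

theorem lw_sum {n : ℕ} {v : Fin n → ℝ} (hv : Function.Injective v) {q : Polynomial ℝ}
    (hq : q.degree < n) (t : ℝ) : ∑ i, lw v i t * q.eval (v i) = q.eval t := by
  have h1 := Lagrange.eq_interpolate (s := (Finset.univ : Finset (Fin n))) (v := v) (f := q)
    (fun a _ b _ h => hv h) (by
      rw [Finset.card_univ, Fintype.card_fin]
      exact hq)
  have h2 := congrArg (fun f : Polynomial ℝ => f.eval t) h1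
  simp only [Lagrange.interpolate_apply, Polynomial.eval_finsetSum, Polynomial.eval_mul,
    Polynomial.eval_C] at h2
  rw [h2]
  refine Finset.sum_congr rfl fun i _ => ?_
  unfold lw
  ring

/-- The combination of the shapes. -/
noncomputable def cmb {k n : ℕ} (om : Fin k → ℝ) (t₀ : ℝ) (v : Fin n → ℝ) (S₀ : Pl k)
    (S : Fin n → Pl k) : Pl k :=
  sh (fun i => t₀ * om i) S₀ -
    ∑ j, MvPolynomial.C (lw v j t₀) * sh (fun i => v j * om i) (S j)

theorem eval_cmb {k n : ℕ} (om : Fin k → ℝ) (t₀ : ℝ) (v : Fin n → ℝ) (S₀ : Pl k)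
    (S : Fin n → Pl k) (y : Fin k → ℝ) : MvPolynomial.eval y (cmb om t₀ v S₀ S) =
      MvPolynomial.eval (fun i => y i + t₀ * om i) S₀ -
        ∑ j, lw v j t₀ * MvPolynomial.eval (fun i => y i + v j * om i) (S j) := by
  unfold cmb
  rw [map_sub, eval_sh, map_sum]
  congr 1
  refine Finset.sum_congr rfl fun j _ => ?_
  rw [map_mul, MvPolynomial.eval_C, eval_sh]

theorem degree_cmb {k n D : ℕ} (om : Fin k → ℝ) (t₀ : ℝ) (v : Fin n → ℝ) {S₀ : Pl k}
    {S : Fin n → Pl k} (h₀ : S₀.totalDegree ≤ D) (h : ∀ j, (S j).totalDegree ≤ D) :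
    (cmb om t₀ v S₀ S).totalDegree ≤ D := by
  unfold cmb
  refine (MvPolynomial.totalDegree_sub _ _).trans (max_le (degree_sh _ _ h₀) ?_)
  refine MvPolynomial.totalDegree_finsetSum_le fun j _ => ?_
  refine (MvPolynomial.totalDegree_mul _ _).trans ?_
  rw [MvPolynomial.totalDegree_C, zero_add]
  exact degree_sh _ _ (h j)

theorem td_pd {k D : ℕ} {F : Pl k} (h : F.totalDegree ≤ D) (l : Fin k) :
    (MvPolynomial.pderiv l F).totalDegree ≤ D := by
  refine le_trans ?_ h
  refine Finset.sup_le fun s hs => ?_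
  classical
  rw [MvPolynomial.mem_support_iff] at hs
  have h1 : F.coeff (s + Finsupp.single l 1) ≠ 0 := by
    intro h0
    apply hs
    rw [MvPolynomial.coeff_pderiv, h0, zero_mul]
  have h2 := MvPolynomial.le_totalDegree (MvPolynomial.mem_support_iff.2 h1)
  refine le_trans ?_ h2
  rw [Finsupp.sum_add_index' (fun _ => rfl) (fun _ _ _ => rfl)]
  exact Nat.le_add_right _ _

section

variable {Ω : Type} [Fintype Ω]

theorem Pb_mono {p : Ω → ℝ} (hp : ∀ ω, 0 ≤ p ω) {A B : Ω → Prop} (h : ∀ ω, A ω → B ω) :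
    Pb p A ≤ Pb p B := by
  classical
  unfold Pb
  refine Finset.sum_le_sum fun ω _ => ?_
  by_cases hA : A ω
  · rw [if_pos hA, if_pos (h ω hA)]
  · rw [if_neg hA]
    split_ifs
    · exact hp ω
    · exact le_rfl

theorem Pb_ex {k : ℕ} {p : Ω → ℝ} (hp : ∀ ω, 0 ≤ p ω) (A : Fin k → Ω → Prop) :
    Pb p (fun ω => ∃ l, A l ω) ≤ ∑ l, Pb p (A l) := by
  classical
  unfold Pb
  rw [Finset.sum_comm]
  refine Finset.sum_le_sum fun ω _ => ?_
  by_cases hA : ∃ l, A l ω
  · rw [if_pos hA]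
    obtain ⟨l, hl⟩ := hA
    have h1 := Finset.single_le_sum (f := fun l => if A l ω then p ω else 0)
      (fun l _ => by split_ifs; exacts [hp ω, le_rfl]) (Finset.mem_univ l)
    rw [if_pos hl] at h1
    exact h1
  · rw [if_neg hA]
    exact Finset.sum_nonneg fun l _ => by split_ifs; exacts [hp ω, le_rfl]

end

/-- **LEMMA B**, pure form. `om` velocity, `t₀` the time, `v` the reference times, `S₀` and `S` the
shapes at these times, all functions of the context; `g` the own slopes, polynomials in the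
time. -/
theorem lemB (k n D : ℕ) (C₀ : ℝ) (hC₀ : 1 ≤ C₀) : ∃ C : ℝ, 1 ≤ C ∧
    ∀ (Ω Γ : Type) [Fintype Ω] (p : Ω → ℝ) (L : ℕ) (Y : Ω → Fin k → ℕ) (c : Ω → Γ)
      (om : Γ → Fin k → ℝ) (t₀ : Γ → ℝ) (v : Γ → Fin n → ℝ) (S₀ : Γ → Pl k)
      (S : Γ → Fin n → Pl k) (g : Ω → Fin k → Polynomial ℝ) (Gd : Ω → Prop) (ρ τ θ η : ℝ),
      IsLaw p → (∀ ω i, Y ω i < 2 ^ L) → (∀ x, (S₀ x).totalDegree ≤ D) →
      (∀ x i, (S x i).totalDegree ≤ D) → 0 ≤ θ → 0 < η → η ≤ 1 → 0 < ρ → ρ ≤ 1 → 0 < τ →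
      k * (L * Real.log 2) - θ ≤ CH p Y c → Pb p (fun ω => ¬ Gd ω) ≤ η / 4 →
      C * (θ + 1) / η ≤ L * Real.log 2 →
      (∀ ω, Gd ω → (∀ i, |om (c ω) i| ≤ C₀) ∧ |t₀ (c ω)| ≤ 1 ∧ (∀ i, |v (c ω) i| ≤ 1) ∧
        (∀ i j, i ≠ j → ρ ≤ |v (c ω) i - v (c ω) j|) ∧ (∀ l, (g ω l).degree < n) ∧
        ∃ y : Fin k → ℝ, (∀ i, |y i - (Y ω i : ℝ) / 2 ^ L| ≤ C₀ / 2 ^ L) ∧ ∀ l,
          |MvPolynomial.eval (fun i => y i + t₀ (c ω) * om (c ω) i)
            (MvPolynomial.pderiv l (S₀ (c ω))) - (g ω l).eval (t₀ (c ω))| ≤ τ ∧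
          ∀ j, |MvPolynomial.eval (fun i => y i + v (c ω) j * om (c ω) i)
            (MvPolynomial.pderiv l (S (c ω) j)) - (g ω l).eval (v (c ω) j)| ≤ τ) →
      Pb p (fun ω => Gd ω ∧ ¬ ∀ z : Fin k → ℝ, (∀ i, |z i| ≤ C₀) → ∀ l,
        |MvPolynomial.eval z (MvPolynomial.pderiv l (S₀ (c ω))) -
          ∑ j, lw (v (c ω)) j (t₀ (c ω)) *
            MvPolynomial.eval (fun i => z i + (v (c ω) j - t₀ (c ω)) * om (c ω) i)
              (MvPolynomial.pderiv l (S (c ω) j))| ≤
          Real.exp (C * (θ + 1) / η) * (C / ρ ^ n) * τ) ≤ k * η := by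
  obtain ⟨C₁, hC₁, hren⟩ := Pool.Agent.H33.BFL.ren_thm k D (3 * C₀) (by linarith)
  set C₂ : ℝ := (n + 1) * 2 ^ n with hC₂
  have hC₂0 : 0 < C₂ := by positivity
  refine ⟨max C₁ C₂, hC₁.trans (le_max_left _ _), ?_⟩
  intro Ω Γ _ p L Y c om t₀ v S₀ S g Gd ρ τ θ η hp hY hS₀ hS hθ hη hη1 hρ hρ1 hτ hH hGd hL hgood
  set C : ℝ := max C₁ C₂ with hC
  have hC1 : C₁ ≤ C := le_max_left _ _
  have hC2 : C₂ ≤ C := le_max_right _ _
  set τ' : ℝ := C₂ / ρ ^ n * τ with hτ'
  have hρn : (0 : ℝ) < ρ ^ n := pow_pos hρ n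
  have hτ'0 : 0 < τ' := by positivity
  have hlog : C₁ * (θ + 1) / η ≤ C * (θ + 1) / η := by
    refine div_le_div_of_nonneg_right ?_ hη.le
    exact mul_le_mul_of_nonneg_right hC1 (by linarith)
  have key : ∀ l : Fin k, Pb p (fun ω => ¬ ∀ y : Fin k → ℝ, (∀ i, |y i| ≤ 3 * C₀) →
      |MvPolynomial.eval y (cmb (om (c ω)) (t₀ (c ω)) (v (c ω))
        (MvPolynomial.pderiv l (S₀ (c ω))) fun j => MvPolynomial.pderiv l (S (c ω) j))| ≤
        Real.exp (C₁ * (θ + 1) / η) * τ') ≤ η := by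
    intro l
    refine hren Ω Γ p L Y c (fun x => cmb (om x) (t₀ x) (v x)
      (MvPolynomial.pderiv l (S₀ x)) fun j => MvPolynomial.pderiv l (S x j)) Gd (fun _ => τ') θ η
      hp hY (fun x => degree_cmb _ _ _ (td_pd (hS₀ x) l) fun j => td_pd (hS x j) l) hθ hη hη1 hH
      hGd (fun _ => hτ'0) (hlog.trans hL) ?_
    intro ω hω
    obtain ⟨hom, ht, hv, hsep, hg, y, hy, hyl⟩ := hgood ω hω
    refine ⟨y, fun i => (hy i).trans ?_, ?_⟩
    · refine div_le_div_of_nonneg_right ?_ (by positivity)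
      linarith
    have hinj : Function.Injective (v (c ω)) := by
      intro i j hij
      by_contra hne
      have h1 := hsep i j hne
      rw [hij, sub_self, abs_zero] at h1
      linarith
    obtain ⟨h1, h2⟩ := hyl l
    rw [eval_cmb]
    have h3 := lw_sum hinj (hg l) (t₀ (c ω))
    set a₀ := MvPolynomial.eval (fun i => y i + t₀ (c ω) * om (c ω) i)
            (MvPolynomial.pderiv l (S₀ (c ω))) with ha₀
    set a : Fin n → ℝ := fun j => MvPolynomial.eval (fun i => y i + v (c ω) j * om (c ω) i)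
            (MvPolynomial.pderiv l (S (c ω) j)) with ha
    have h4 : a₀ - ∑ j, lw (v (c ω)) j (t₀ (c ω)) * a j = (a₀ - (g ω l).eval (t₀ (c ω))) -
        ∑ j, lw (v (c ω)) j (t₀ (c ω)) * (a j - (g ω l).eval (v (c ω) j)) := by
      simp only [mul_sub, Finset.sum_sub_distrib]
      rw [h3]
      ring
    have h5 : |∑ j, lw (v (c ω)) j (t₀ (c ω)) * (a j - (g ω l).eval (v (c ω) j))| ≤
        n * ((2 / ρ) ^ n * τ) := by
      refine (Finset.abs_sum_le_sum_abs _ _).trans ?_
      have h6 : ∀ j ∈ (Finset.univ : Finset (Fin n)),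
          |lw (v (c ω)) j (t₀ (c ω)) * (a j - (g ω l).eval (v (c ω) j))| ≤ (2 / ρ) ^ n * τ := by
        intro j _
        rw [abs_mul]
        exact mul_le_mul (lw_bound hρ hρ1 ht hv hsep j) (h2 j) (abs_nonneg _) (by positivity)
      refine (Finset.sum_le_sum h6).trans (le_of_eq ?_)
      rw [Finset.sum_const, Finset.card_univ, Fintype.card_fin, nsmul_eq_mul]
    have h7 : (1 : ℝ) ≤ (2 / ρ) ^ n := by
      refine one_le_pow₀ ?_
      rw [le_div_iff₀ hρ]
      linarith
    have h8 : τ' = (n + 1) * ((2 / ρ) ^ n * τ) := by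
      rw [hτ', hC₂, div_pow]
      ring
    rw [h4]
    refine (abs_sub _ _).trans ?_
    rw [h8]
    have h9 : τ ≤ (2 / ρ) ^ n * τ := le_mul_of_one_le_left hτ.le h7
    calc |a₀ - (g ω l).eval (t₀ (c ω))| +
          |∑ j, lw (v (c ω)) j (t₀ (c ω)) * (a j - (g ω l).eval (v (c ω) j))| ≤
          (2 / ρ) ^ n * τ + n * ((2 / ρ) ^ n * τ) := add_le_add (h1.trans h9) h5
      _ = (n + 1) * ((2 / ρ) ^ n * τ) := by ring
  have hfin : Pb p (fun ω => Gd ω ∧ ¬ ∀ z : Fin k → ℝ, (∀ i, |z i| ≤ C₀) → ∀ l,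
        |MvPolynomial.eval z (MvPolynomial.pderiv l (S₀ (c ω))) -
          ∑ j, lw (v (c ω)) j (t₀ (c ω)) *
            MvPolynomial.eval (fun i => z i + (v (c ω) j - t₀ (c ω)) * om (c ω) i)
              (MvPolynomial.pderiv l (S (c ω) j))| ≤
          Real.exp (C * (θ + 1) / η) * (C / ρ ^ n) * τ) ≤
      Pb p (fun ω => ∃ l : Fin k, ¬ ∀ y : Fin k → ℝ, (∀ i, |y i| ≤ 3 * C₀) →
      |MvPolynomial.eval y (cmb (om (c ω)) (t₀ (c ω)) (v (c ω))
        (MvPolynomial.pderiv l (S₀ (c ω))) fun j => MvPolynomial.pderiv l (S (c ω) j))| ≤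
        Real.exp (C₁ * (θ + 1) / η) * τ') := by
    refine Pb_mono hp.nonneg fun ω hω => ?_
    obtain ⟨hGω, hne⟩ := hω
    by_contra hcon
    push Not at hcon
    apply hne
    intro z hz l
    obtain ⟨hom, ht, hv, hsep, hg, y, hy, hyl⟩ := hgood ω hGω
    have h1 := hcon l (fun i => z i - t₀ (c ω) * om (c ω) i) (by
      intro i
      refine (abs_sub _ _).trans ?_
      rw [abs_mul]
      have h2 : |t₀ (c ω)| * |om (c ω) i| ≤ 1 * C₀ :=
        mul_le_mul ht (hom i) (abs_nonneg _) (by norm_num)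
      linarith [hz i])
    rw [eval_cmb] at h1
    have h3 : (fun i => z i - t₀ (c ω) * om (c ω) i + t₀ (c ω) * om (c ω) i) = z := by
      funext i
      ring
    have h4 : ∀ j, (fun i => z i - t₀ (c ω) * om (c ω) i + v (c ω) j * om (c ω) i) =
        fun i => z i + (v (c ω) j - t₀ (c ω)) * om (c ω) i := by
      intro j
      funext i
      ring
    simp only [h3, h4] at h1
    refine h1.trans ?_
    rw [hτ', ← mul_assoc]
    refine mul_le_mul_of_nonneg_right ?_ hτ.le
    refine mul_le_mul (Real.exp_le_exp.2 hlog) ?_ (by positivity) (Real.exp_pos _).le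
    exact div_le_div_of_nonneg_right hC2 hρn.le
  refine hfin.trans ((Pb_ex hp.nonneg _).trans ?_)
  refine (Finset.sum_le_sum fun l _ => key l).trans (le_of_eq ?_)
  rw [Finset.sum_const, Finset.card_univ, Fintype.card_fin, nsmul_eq_mul]

/-- The new shape is a polynomial in the time and the position. -/
theorem lemB_poly (k n D : ℕ) (v : Fin n → ℝ) (om : Fin k → ℝ) (S : Fin n → Pl k)
    (hS : ∀ j, (S j).totalDegree ≤ D) : ∃ P : Pl (k + 1), P.totalDegree ≤ n + D ∧
      ∀ (t : ℝ) (z : Fin k → ℝ), MvPolynomial.eval (Fin.cons t z) P =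
        ∑ j, lw v j t * MvPolynomial.eval (fun i => z i + (v j - t) * om i) (S j) := by
  classical
  let X₀ : Pl (k + 1) := MvPolynomial.X 0
  let W : Fin n → Pl (k + 1) := fun i =>
    ∏ j ∈ univ.erase i, (MvPolynomial.C (v i - v j)⁻¹ * (X₀ - MvPolynomial.C (v j)))
  let f : Fin n → Fin k → Pl (k + 1) := fun j i => MvPolynomial.X i.succ +
    (MvPolynomial.C (v j) - X₀) * MvPolynomial.C (om i)
  have hf : ∀ j i, (f j i).totalDegree ≤ 1 := by
    intro j i
    refine (MvPolynomial.totalDegree_add _ _).trans (max_le ?_ ?_)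
    · rw [MvPolynomial.totalDegree_X]
    · refine (MvPolynomial.totalDegree_mul _ _).trans ?_
      rw [MvPolynomial.totalDegree_C, add_zero]
      refine (MvPolynomial.totalDegree_sub _ _).trans (max_le ?_ ?_)
      · rw [MvPolynomial.totalDegree_C]
        exact Nat.zero_le _
      · rw [MvPolynomial.totalDegree_X]
  refine ⟨∑ j, W j * MvPolynomial.aeval (f j) (S j), ?_, ?_⟩
  · refine MvPolynomial.totalDegree_finsetSum_le fun j _ => ?_
    refine (MvPolynomial.totalDegree_mul _ _).trans (Nat.add_le_add ?_ ?_)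
    · refine (MvPolynomial.totalDegree_finsetProd _ _).trans ?_
      have h1 : ∀ i ∈ univ.erase j, (MvPolynomial.C (v j - v i)⁻¹ *
          (X₀ - MvPolynomial.C (v i)) : Pl (k + 1)).totalDegree ≤ 1 := by
        intro i _
        refine (MvPolynomial.totalDegree_mul _ _).trans ?_
        rw [MvPolynomial.totalDegree_C, zero_add]
        refine (MvPolynomial.totalDegree_sub _ _).trans (max_le ?_ ?_)
        · rw [MvPolynomial.totalDegree_X]
        · rw [MvPolynomial.totalDegree_C]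
          exact Nat.zero_le _
      refine (Finset.sum_le_sum h1).trans ?_
      rw [Finset.sum_const, smul_eq_mul, mul_one]
      exact (Finset.card_le_univ _).trans (by simp)
    · rw [MvPolynomial.aeval_def, MvPolynomial.eval₂_eq']
      refine MvPolynomial.totalDegree_finsetSum_le fun d hd => ?_
      refine (MvPolynomial.totalDegree_mul _ _).trans ?_
      have h0 : (algebraMap ℝ (Pl (k + 1)) (MvPolynomial.coeff d (S j))).totalDegree = 0 := by
        rw [MvPolynomial.algebraMap_eq, MvPolynomial.totalDegree_C]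
      rw [h0, zero_add]
      refine (MvPolynomial.totalDegree_finsetProd _ _).trans ?_
      have h1 : ∀ i ∈ (Finset.univ : Finset (Fin k)), ((f j i) ^ d i).totalDegree ≤ d i := by
        intro i _
        refine (MvPolynomial.totalDegree_pow _ _).trans ?_
        calc d i * _ ≤ d i * 1 := Nat.mul_le_mul_left _ (hf j i)
          _ = d i := Nat.mul_one _
      refine (Finset.sum_le_sum h1).trans ?_
      have h3 : ∑ i, d i = d.sum fun _ e => e := by
        rw [Finsupp.sum_fintype _ _ fun _ => rfl]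
      rw [h3]
      exact (MvPolynomial.le_totalDegree hd).trans (hS j)
  · intro t z
    rw [map_sum]
    refine Finset.sum_congr rfl fun j _ => ?_
    rw [map_mul]
    congr 1
    · rw [lw_eq, map_prod]
      refine Finset.prod_congr rfl fun i _ => ?_
      simp [X₀]
    · rw [MvPolynomial.aeval_def, MvPolynomial.eval₂_eq', map_sum, MvPolynomial.eval_eq']
      refine Finset.sum_congr rfl fun d _ => ?_
      rw [map_mul, map_prod, MvPolynomial.algebraMap_eq, MvPolynomial.eval_C]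
      congr 1
      refine Finset.prod_congr rfl fun i _ => ?_
      rw [map_pow]
      congr 1
      simp [f, X₀]

end Pool.GNB
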