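import Pool.Agent.H44.GN.PthD
import Pool.Agent.H36.PTH.D135
import Pool.Agent.H48.PTH.D4
import Pool.Agent.H59.PTH.D
import Pool.Agent.H41.PTH.DF
import Pool.Agent.H41.PTH.ALV
import Pool.Agent.H48.M5.L1

/-!
# The path lemma for abstract data

The data are realised by a family of lines: the line is coded in the passive coordinate, all
velocities and all other positions are `0`.
-/

set_option autoImplicit false

namespace Pool.GPath

open Finset Real MvPolynomial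
open Pool.Agent.H49.Ent Pool.Agent.H32.Dense Pool.STK Pool.KA Pool.KSAT Pool.K2S Pool.PB
open Pool.SLO Pool.SLP Pool.KAF

variable {m : ℕ}

/-! ### Changes of coordinates -/

theorem eval_bnd (b : Fin m → ℝ) (f : Fin m → MvPolynomial (Fin m) ℝ)
    (P : MvPolynomial (Fin m) ℝ) : eval b (bind₁ f P) = eval (fun j => eval b (f j)) P := by
  rw [eval, eval₂Hom_bind₁]
  rfl

theorem eval_zoom (i₁ : Fin m) (w n : ℕ) (P : MvPolynomial (Fin m) ℝ) (b : Fin m → ℝ) :
    eval b (zoom i₁ w n P) =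
      eval (fun j => if j = i₁ then (n : ℝ) / 2 ^ w + b i₁ / 2 ^ w else b j) P := by
  unfold zoom
  rw [eval_bnd]
  have h : (fun j => eval b (if j = i₁ then C ((n : ℝ) / 2 ^ w) + C (1 / 2 ^ w) *
      MvPolynomial.X i₁ else MvPolynomial.X j)) =
      fun j => if j = i₁ then (n : ℝ) / 2 ^ w + b i₁ / 2 ^ w else b j := by
    funext j
    by_cases hj : j = i₁
    · rw [if_pos hj, if_pos hj, map_add, map_mul, eval_C, eval_C, eval_X]
      ring
    · rw [if_neg hj, if_neg hj, eval_X]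
  rw [h]

theorem totalDegree_zoom_le (i₁ : Fin m) (w n : ℕ) (P : MvPolynomial (Fin m) ℝ) :
    (zoom i₁ w n P).totalDegree ≤ P.totalDegree := by
  refine totalDegree_bind₁_le _ (fun j => ?_) P
  by_cases hj : j = i₁
  · rw [if_pos hj]
    refine (totalDegree_add _ _).trans (max_le ?_ ?_)
    · rw [totalDegree_C]
      exact Nat.zero_le _
    · refine (totalDegree_mul _ _).trans ?_
      rw [totalDegree_C, totalDegree_X]
  · rw [if_neg hj, totalDegree_X]

/-- The dilation of the space coordinates. -/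
noncomputable def dil (i₁ : Fin m) (a : ℕ) (P : MvPolynomial (Fin m) ℝ) :
    MvPolynomial (Fin m) ℝ :=
  bind₁ (fun j => if j = i₁ then MvPolynomial.X i₁ else C (2 ^ a) * MvPolynomial.X j) P

theorem eval_dil (i₁ : Fin m) (a : ℕ) (P : MvPolynomial (Fin m) ℝ) (b : Fin m → ℝ) :
    eval b (dil i₁ a P) = eval (fun j => if j = i₁ then b i₁ else 2 ^ a * b j) P := by
  unfold dil
  rw [eval_bnd]
  have h : (fun j => eval b (if j = i₁ then MvPolynomial.X i₁ else C (2 ^ a) *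
      MvPolynomial.X j)) = fun j => if j = i₁ then b i₁ else 2 ^ a * b j := by
    funext j
    by_cases hj : j = i₁
    · rw [if_pos hj, if_pos hj, eval_X]
    · rw [if_neg hj, if_neg hj, map_mul, eval_C, eval_X]
  rw [h]

theorem totalDegree_dil_le (i₁ : Fin m) (a : ℕ) (P : MvPolynomial (Fin m) ℝ) :
    (dil i₁ a P).totalDegree ≤ P.totalDegree := by
  refine totalDegree_bind₁_le _ (fun j => ?_) P
  by_cases hj : j = i₁
  · rw [if_pos hj, totalDegree_X]
  · rw [if_neg hj]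
    refine (totalDegree_mul _ _).trans ?_
    rw [totalDegree_C, totalDegree_X]

/-! ### The family -/

namespace Dat

variable (d : Dat m) (i₁ : Fin m)

open Classical in
/-- A real code of the line. -/
noncomputable def code (l : d.Lam) : ℝ :=
  if h : ∃ ω, d.L ω = l then ((Fintype.equivFin d.Om (Classical.choose h) : Fin _) : ℕ) else 0

theorem code_inj {ω ω' : d.Om} (h : d.code (d.L ω) = d.code (d.L ω')) : d.L ω = d.L ω' := by
  classical
  have h1 : ∃ ω₀, d.L ω₀ = d.L ω := ⟨ω, rfl⟩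
  have h2 : ∃ ω₀, d.L ω₀ = d.L ω' := ⟨ω', rfl⟩
  unfold code at h
  rw [dif_pos h1, dif_pos h2] at h
  have h3 := Nat.cast_injective h
  have h4 := (Fintype.equivFin d.Om).injective (Fin.ext h3)
  rw [← Classical.choose_spec h1, ← Classical.choose_spec h2, h4]

open Classical in
/-- The label as a function of the code. -/
noncomputable def Hc (x : ℝ) (z : d.Ze) : MvPolynomial (Fin m) ℝ :=
  if h : ∃ ω, d.code (d.L ω) = x then d.H (d.L (Classical.choose h)) z else 0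

theorem Hc_code (ω : d.Om) (z : d.Ze) : d.Hc (d.code (d.L ω)) z = d.H (d.L ω) z := by
  classical
  have h : ∃ ω', d.code (d.L ω') = d.code (d.L ω) := ⟨ω, rfl⟩
  unfold Hc
  rw [dif_pos h, d.code_inj (Classical.choose_spec h)]

theorem Hc_deg {K : ℕ} (h : ∀ l z, (d.H l z).totalDegree ≤ K) (x : ℝ) (z : d.Ze) :
    (d.Hc x z).totalDegree ≤ K := by
  classical
  unfold Hc
  split_ifs with h1
  · exact h _ _
  · rw [totalDegree_zero]
    exact Nat.zero_le _

/-- The family of the data. -/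
noncomputable def fam (hp : IsLaw d.p) (hT : ∀ ω, d.T ω < 2 ^ d.J) : Fam m d.J where
  Ω := d.Om
  ζ := d.Ze
  fin := d.fin
  p := d.p
  u := fun ω j => if j = i₁ then d.code (d.L ω) else 0
  d := fun _ _ => 0
  T := d.T
  Z := d.E
  isLaw := hp
  dir := fun _ _ => by rw [abs_zero]; exact zero_le_one
  tim := hT

/-- The label in the coordinates of the family. -/
noncomputable def Hf (a : ℕ) : ((Fin m → ℝ) × (Fin m → ℝ)) × d.Ze × ℕ → MvPolynomial (Fin m) ℝ :=
  fun s => dil i₁ a (d.Hc (s.1.1 i₁) s.2.1)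

variable {d i₁} (hp : IsLaw d.p) (hT : ∀ ω, d.T ω < 2 ^ d.J)

theorem fam_l {ω ω' : d.Om} : (d.fam i₁ hp hT).l ω = (d.fam i₁ hp hT).l ω' ↔ d.L ω = d.L ω' := by
  constructor
  · intro h
    have h1 : (d.fam i₁ hp hT).u ω i₁ = (d.fam i₁ hp hT).u ω' i₁ := by
      have := (Prod.ext_iff.1 h).1
      exact congrFun this i₁
    have h2 : (if i₁ = i₁ then d.code (d.L ω) else 0) =
        (if i₁ = i₁ then d.code (d.L ω') else 0) := h1
    rw [if_pos rfl, if_pos rfl] at h2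
    exact d.code_inj h2
  · intro h
    refine Prod.ext ?_ rfl
    show (fun j => if j = i₁ then d.code (d.L ω) else 0) =
      fun j => if j = i₁ then d.code (d.L ω') else 0
    rw [h]

theorem fam_x1 (w : ℕ) (ω : d.Om) {j : Fin m} (hj : j ≠ i₁) :
    (d.fam i₁ hp hT).x1 w ω j = 0 := by
  show (if j = i₁ then d.code (d.L ω) else 0) + ((d.fam i₁ hp hT).T1 w ω : ℝ) / 2 ^ w * 0 = 0
  rw [if_neg hj, mul_zero, add_zero]

theorem fam_x (ω : d.Om) {j : Fin m} (hj : j ≠ i₁) : (d.fam i₁ hp hT).x ω j = 0 := by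
  show (if j = i₁ then d.code (d.L ω) else 0) + (d.fam i₁ hp hT).t ω * 0 = 0
  rw [if_neg hj, mul_zero, add_zero]

theorem tm_tw (w : ℕ) (ω : d.Om) : (d.T1 w ω : ℝ) / 2 ^ w + d.tw w ω / 2 ^ w = d.tm ω := by
  unfold tw
  field_simp
  ring

theorem fam_cw (a w : ℕ) (ω : d.Om) (j : Fin m) : cw (d.fam i₁ hp hT) i₁ a w ω j =
    if j = i₁ then (d.T1 w ω : ℝ) / 2 ^ w else 0 := by
  unfold cw
  by_cases hj : j = i₁
  · rw [if_pos hj, if_pos hj]
    rfl
  · rw [if_neg hj, if_neg hj, fam_x1 hp hT w ω hj, mul_zero, Int.floor_zero, Int.cast_zero,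
      zero_div]

theorem fam_dq (q : ℕ) (ω : d.Om) (j : Fin m) : dq (d.fam i₁ hp hT) i₁ q ω j = 0 := by
  unfold dq
  by_cases hj : j = i₁
  · rw [if_pos hj]
  · rw [if_neg hj]
    show (⌊(2 : ℝ) ^ q * 0⌋ : ℝ) / 2 ^ q = 0
    rw [mul_zero, Int.floor_zero, Int.cast_zero, zero_div]

theorem fam_clp (a w : ℕ) (ω : d.Om) : clp (d.fam i₁ hp hT) i₁ a w ω = 0 := by
  funext j
  unfold clp
  by_cases hj : j = i₁
  · rw [if_pos hj]
    rfl
  · rw [if_neg hj, fam_x1 hp hT w ω hj, mul_zero, Int.floor_zero]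
    rfl

theorem fam_cld (q : ℕ) (ω : d.Om) : cld (d.fam i₁ hp hT) i₁ q ω = 0 := by
  funext j
  unfold cld
  by_cases hj : j = i₁
  · rw [if_pos hj]
    rfl
  · rw [if_neg hj]
    show ⌊(2 : ℝ) ^ q * 0⌋ = 0
    rw [mul_zero, Int.floor_zero]

theorem fam_plb (a w q : ℕ) (ω : d.Om) (P : MvPolynomial (Fin m) ℝ) :
    plb (d.fam i₁ hp hT) i₁ a w q ω (dil i₁ a P) = zoom i₁ w (d.T1 w ω) P := by
  refine MvPolynomial.funext fun x => ?_
  unfold plb
  rw [eval_pull, eval_dil, eval_zoom]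
  have h : (fun j => if j = i₁ then sb i₁ a w (cw (d.fam i₁ hp hT) i₁ a w ω)
      (dq (d.fam i₁ hp hT) i₁ q ω) x i₁ else 2 ^ a * sb i₁ a w (cw (d.fam i₁ hp hT) i₁ a w ω)
      (dq (d.fam i₁ hp hT) i₁ q ω) x j) =
      fun j => if j = i₁ then (d.T1 w ω : ℝ) / 2 ^ w + x i₁ / 2 ^ w else x j := by
    funext j
    by_cases hj : j = i₁
    · rw [if_pos hj, if_pos hj]
      unfold sb
      rw [if_pos rfl, fam_cw, if_pos rfl]
    · rw [if_neg hj, if_neg hj]
      unfold sb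
      rw [if_neg hj, fam_cw, if_neg hj, fam_dq]
      field_simp
      ring
  rw [h]

theorem fam_tdg (a : ℕ) (ω : d.Om) : tdg i₁ a (d.fam i₁ hp hT).x ω = 0 := by
  funext j
  unfold tdg
  by_cases hj : j = i₁
  · rw [if_pos hj]
    rfl
  · rw [if_neg hj, fam_x hp hT ω hj, mul_zero, Int.floor_zero]
    rfl

theorem fam_tco (a : ℕ) (ω : d.Om) : tco i₁ a (d.fam i₁ hp hT).x ω = 0 := by
  funext j
  unfold tco
  rw [fam_tdg]
  show ((0 : ℤ) : ℝ) / 2 ^ a = 0
  rw [Int.cast_zero, zero_div]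

theorem fam_cpl (a : ℕ) (ω : d.Om) :
    cpl (d.fam i₁ hp hT) i₁ a (fun ω => dil i₁ a (d.G ω)) ω = fixt i₁ (d.tm ω) (d.G ω) := by
  refine MvPolynomial.funext fun x => ?_
  refine (eval_cpl (d.fam i₁ hp hT) i₁ a (fun ω => dil i₁ a (d.G ω)) ω x).trans ?_
  rw [eval_fixt, fam_tco]
  unfold gfn
  rw [eval_dil]
  have h : (fun j => if j = i₁ then Function.update (fun i => (0 : Fin m → ℝ) i +
      1 / 2 ^ a * x i) i₁ ((d.fam i₁ hp hT).t ω) i₁ else 2 ^ a * Function.update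
        (fun i => (0 : Fin m → ℝ) i + 1 / 2 ^ a * x i) i₁ ((d.fam i₁ hp hT).t ω) j) =
      Function.update x i₁ (d.tm ω) := by
    funext j
    by_cases hj : j = i₁
    · rw [if_pos hj, hj, Function.update_self, Function.update_self]
      rfl
    · rw [if_neg hj, Function.update_of_ne hj, Function.update_of_ne hj]
      show 2 ^ a * ((0 : ℝ) + 1 / 2 ^ a * x j) = x j
      field_simp
      ring
  rw [h]

theorem fam_gfn (a : ℕ) (ω : d.Om) :
    gfn (d.fam i₁ hp hT) i₁ (fun ω => dil i₁ a (d.G ω)) ω 0 = d.g0 i₁ ω := by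
  unfold gfn g0
  rw [eval_dil]
  have h : (fun j => if j = i₁ then Function.update (0 : Fin m → ℝ) i₁
      ((d.fam i₁ hp hT).t ω) i₁ else 2 ^ a * Function.update (0 : Fin m → ℝ) i₁
        ((d.fam i₁ hp hT).t ω) j) = pnt i₁ 0 0 (d.tm ω) := by
    funext j
    by_cases hj : j = i₁
    · rw [if_pos hj, hj, Function.update_self, Pool.PTH.pnt_self]
      rfl
    · rw [if_neg hj, Function.update_of_ne hj, Pool.PTH.pnt_ne i₁ _ hj]
      show 2 ^ a * (0 : ℝ) = 0
      rw [mul_zero]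
  rw [h]

theorem fam_Sc (a e K s : ℕ) (ω : d.Om) :
    Sc (d.fam i₁ hp hT) i₁ a e K (fun ω => dil i₁ a (d.G ω)) s ω = d.Sh i₁ K (e + s) ω := by
  funext al
  unfold Sc Sh
  rw [fam_cpl]

theorem fam_bxs (a e K : ℕ) (ω : d.Om) :
    SLP.bxs (d.fam i₁ hp hT) i₁ a e K (fun ω => dil i₁ a (d.G ω)) 0 ω =
      ((d.T ω, d.E ω), (0, (⌊(2 : ℝ) ^ e * d.g0 i₁ ω⌋, d.Sh i₁ K e ω))) := by
  unfold SLP.bxs sbx
  rw [fam_tco, fam_tdg, fam_gfn, fam_Sc, Nat.add_zero]
  rfl

/-- The label in the box of the window `w`. -/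
theorem fam_lab (a w q : ℕ) (ω : d.Om) :
    plb (d.fam i₁ hp hT) i₁ a w q ω (Pool.PTH.lab (d.fam i₁ hp hT) (d.Hf i₁ a) 0 w
      (slam (d.fam i₁ hp hT) w ω)) = zoom i₁ w (d.T1 w ω) (d.hl ω) := by
  have h : Pool.PTH.lab (d.fam i₁ hp hT) (d.Hf i₁ a) 0 w (slam (d.fam i₁ hp hT) w ω) =
      dil i₁ a (d.hl ω) := by
    show dil i₁ a (d.Hc (if i₁ = i₁ then d.code (d.L ω) else 0) (d.E ω)) = _
    rw [if_pos rfl, Hc_code]
    rfl
  rw [h, fam_plb]

theorem fam_ctx (a w q P : ℕ) (ω : d.Om) :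
    ctx (d.fam i₁ hp hT) i₁ a w q P (Pool.PTH.lab (d.fam i₁ hp hT) (d.Hf i₁ a) 0 w) ω =
      (((d.T1 w ω, (0, 0)), hz P (zoom i₁ w (d.T1 w ω) (d.hl ω))), d.E ω) := by
  unfold ctx
  rw [fam_clp, fam_cld, fam_lab]
  rfl

end Dat

end Pool.GPath
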