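import Pool.Agent.H44.GN.Path

/-!
# The path lemma: proof

`path_thm : PathStmt` and `pathY_thm : PathYStmt`.
-/

set_option autoImplicit false

namespace Pool.GPath

open Finset Real MvPolynomial
open Pool.Agent.H49.Ent Pool.Agent.H32.Dense Pool.STK Pool.KA Pool.KSAT Pool.K2S Pool.PB
open Pool.SLO Pool.SLP Pool.KAF

variable {m : ℕ}

theorem cond_sup {Ω : Type} [Fintype Ω] {p : Ω → ℝ} (hp : IsLaw p) :
    Pool.Agent.H49.Ent.cond p (fun ω => 0 < p ω) True = p := by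
  classical
  have h0 : ∀ ω, ¬ 0 < p ω → p ω = 0 := fun ω h => le_antisymm (not_lt.1 h) (hp.nonneg ω)
  have h : Pool.Agent.H49.Ent.law p (fun ω => 0 < p ω) True = 1 := by
    unfold Pool.Agent.H49.Ent.law
    rw [← hp.sum_one]
    refine Finset.sum_congr rfl fun ω _ => ?_
    by_cases h : 0 < p ω
    · rw [if_pos (eq_true h)]
    · rw [if_neg (by simp [h]), h0 ω h]
  funext ω
  by_cases h1 : 0 < p ω
  · rw [Pool.PTH.cond_of_eq (Z := fun ω => 0 < p ω) (eq_true h1), h, div_one]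
  · rw [Pool.PTH.cond_of_ne (Z := fun ω => 0 < p ω) (by simp [h1]), h0 ω h1]

namespace Dat

variable {d : Dat m} {i₁ : Fin m} {K e X a : ℕ} {C0 : ℝ}

theorem tm_mem (hT : ∀ ω, d.T ω < 2 ^ d.J) (ω : d.Om) : 0 ≤ d.tm ω ∧ d.tm ω ≤ 1 := by
  unfold tm
  have h : (d.T ω : ℝ) ≤ 2 ^ d.J := by exact_mod_cast (hT ω).le
  exact ⟨by positivity, (div_le_one (by positivity)).2 h⟩

/-- The own sheet is near the rounded label in all windows. -/
theorem near_fam (hok : d.OK i₁ K e X a C0) {w q : ℕ} {ω : d.Om}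
    (hω : 0 < d.p ω) : NearB (d.fam i₁ hok.law hok.tim) i₁ a w q K (e + X) (e + X)
      (C0 + (mons m K).card) (fun ω => dil i₁ a (d.G ω))
      (Pool.PTH.lab (d.fam i₁ hok.law hok.tim) (d.Hf i₁ a) 0 w) ω := by
  intro b hb hbt
  have hbt' : b i₁ = d.tw w ω := hbt
  have hR : Rc (d.fam i₁ hok.law hok.tim) i₁ a w q K (e + X)
      (Pool.PTH.lab (d.fam i₁ hok.law hok.tim) (d.Hf i₁ a) 0 w) ω =
      rdp K (e + X) (zoom i₁ w (d.T1 w ω) (d.hl ω)) :=
    congrArg (rdp K (e + X)) (fam_lab hok.law hok.tim a w q ω)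
  have hdeg : (zoom i₁ w (d.T1 w ω) (d.hl ω)).totalDegree ≤ K :=
    (totalDegree_zoom_le _ _ _ _).trans (hok.degH _ _)
  have h1 := abs_rdp_le (P := e + X) hdeg (b := b) (fun i => by
    rw [abs_of_nonneg (hb i).1]
    exact (hb i).2)
  have htt := d.tm_tw w ω
  have hbb : (fun j => if j = i₁ then (d.T1 w ω : ℝ) / 2 ^ w + b i₁ / 2 ^ w else b j) =
      Function.update b i₁ (d.tm ω) := by
    funext j
    by_cases hj : j = i₁
    · rw [if_pos hj, hj, Function.update_self, hbt', htt]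
    · rw [if_neg hj, Function.update_of_ne hj]
  rw [eval_zoom, hbb] at h1
  have h2 := hok.near ω hω (Function.update b i₁ (d.tm ω)) (fun j => by
    by_cases hj : j = i₁
    · rw [hj, Function.update_self]
      exact tm_mem hok.tim ω
    · rw [Function.update_of_ne hj]
      exact hb j) (Function.update_self _ _ _)
  rw [hR, fam_plb, eval_zoom, hbb]
  have h3 : (C0 + ((mons m K).card : ℝ)) / 2 ^ (e + X) =
      C0 / 2 ^ (e + X) + (mons m K).card / 2 ^ (e + X) := by ring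
  rw [h3]
  rw [abs_le] at h1 h2 ⊢
  constructor <;> linarith [h1.1, h1.2, h2.1, h2.2]

theorem Hf_deg (hok : d.OK i₁ K e X a C0)
    (s : ((Fin m → ℝ) × (Fin m → ℝ)) × d.Ze × ℕ) : (d.Hf i₁ a s).totalDegree ≤ K :=
  (totalDegree_dil_le _ _ _).trans (d.Hc_deg hok.degH _ _)

/-- The rows of the height over the label of a window, from the rows of the height. -/
theorem hfw_fam (m K : ℕ) (C0 c κ : ℝ) (hC0 : 0 ≤ C0) (hc : 0 < c) (hκ : 0 < κ) :
    ∃ X₀ : ℕ, ∀ (d : Dat m) (i₁ : Fin m) (e X a : ℕ) (π₀ : ℝ) (hok : d.OK i₁ K e X a C0),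
      X₀ ≤ X → 0 < π₀ → d.Row i₁ K e X c κ π₀ → ∀ w ≤ a,
      Pool.PTH.Hfw (d.fam i₁ hok.law hok.tim) i₁ (fun ω => 0 < d.p ω) a w a K e X
        (fun ω => dil i₁ a (d.G ω))
        (Pool.PTH.lab (d.fam i₁ hok.law hok.tim) (d.Hf i₁ a) 0 w) (c / 2) κ π₀ := by
  classical
  obtain ⟨C₁, hC₁, hbx⟩ := box_of_ctx m K
  have hl2 : 0 < Real.log 2 := Real.log_pos (by norm_num)
  obtain ⟨D, hD⟩ : ∃ D : ℝ, D = 2 * Real.log 3 + (m * Real.log 7 + (mons m K).card *
      Real.log (2 * (C₁ * (C0 + (mons m K).card + 2 * (mons m K).card) + 1) + 1)) := ⟨_, rfl⟩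
  refine ⟨⌈2 / κ⌉₊ + ⌈4 * D / (c * κ * Real.log 2)⌉₊, ?_⟩
  intro d i₁ e X a π₀ hok hX hπ hrow w hwa j hj B hBA hPB
  obtain ⟨F, hF⟩ : ∃ F, F = d.fam i₁ hok.law hok.tim := ⟨_, rfl⟩
  have hsup : Pool.Agent.H49.Ent.cond d.p (fun ω => 0 < d.p ω) True = d.p := cond_sup hok.law
  have hPB' : π₀ ≤ Pr d.p {ω | B ω} := by
    have h1 : π₀ ≤ Pr (Pool.Agent.H49.Ent.cond d.p (fun ω => 0 < d.p ω) True) {ω | B ω} := hPB
    rwa [hsup] at h1
  have hpe : 0 < Pool.K2S.Pe d.p B := lt_of_lt_of_le hπ hPB'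
  obtain ⟨q, hq⟩ : ∃ q, q = Pool.Agent.H49.Ent.cond d.p B True := ⟨_, rfl⟩
  have hqlaw : IsLaw q := by
    rw [hq]
    exact Pool.K2S.isLaw_cond hok.law hpe
  have hq0 := hqlaw.nonneg
  have hqB : ∀ ω, 0 < q ω → B ω := by
    intro ω hω
    rw [hq] at hω
    exact of_eq_true ((cond_pos_iff hok.law.nonneg B True ω).1 hω).2
  have hqp : ∀ ω, 0 < q ω → 0 < d.p ω := fun ω h => hBA ω (hqB ω h)
  set h : ℕ := ⌊κ * X⌋₊ with hh
  -- sizes
  have hXr : 2 / κ ≤ X := by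
    have h1 := Nat.le_ceil (2 / κ)
    have h2 : ⌈2 / κ⌉₊ ≤ X := by omega
    have h3 : ((⌈2 / κ⌉₊ : ℕ) : ℝ) ≤ X := by exact_mod_cast h2
    linarith
  have hκX : 2 ≤ κ * X := by
    rw [div_le_iff₀ hκ] at hXr
    linarith
  have hhκ : κ * X / 2 ≤ h := by
    have := Nat.lt_floor_add_one (κ * X)
    rw [← hh] at this
    linarith
  have hXD : 4 * D / (c * κ * Real.log 2) ≤ X := by
    have h1 := Nat.le_ceil (4 * D / (c * κ * Real.log 2))
    have h2 : ⌈4 * D / (c * κ * Real.log 2)⌉₊ ≤ X := by omega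
    have h3 : ((⌈4 * D / (c * κ * Real.log 2)⌉₊ : ℕ) : ℝ) ≤ X := by exact_mod_cast h2
    linarith
  have hDh : D ≤ c / 2 * h * Real.log 2 := by
    rw [div_le_iff₀ (by positivity)] at hXD
    have h1 : c * κ * Real.log 2 * X ≤ c * Real.log 2 * (2 * h) := by
      have h2 : κ * X ≤ 2 * h := by linarith
      have h3 : 0 ≤ c * Real.log 2 := by positivity
      have h4 := mul_le_mul_of_nonneg_left h2 h3
      linarith
    nlinarith
  -- the functions
  obtain ⟨g, hg⟩ : ∃ g : ℕ → d.Om → ℤ, g = fun r ω => ⌊(2 : ℝ) ^ (e + r) * d.g0 i₁ ω⌋ :=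
    ⟨_, rfl⟩
  obtain ⟨rw', hrw'⟩ : ∃ rw' : d.Om → ℝ, rw' = fun ω => eval (pnt i₁ 0 0 (d.tw w ω))
      (rdp K e (zoom i₁ w (d.T1 w ω) (d.hl ω))) := ⟨_, rfl⟩
  obtain ⟨u, hu⟩ : ∃ u : ℕ → d.Om → ℤ, u = fun r ω => ⌊(2 : ℝ) ^ r * (2 ^ e *
      (d.g0 i₁ ω - rw' ω))⌋ := ⟨_, rfl⟩
  have hun : ∀ r ω, Pool.PTH.unu (d.fam i₁ hok.law hok.tim) i₁ a w a K e
      (Pool.PTH.lab (d.fam i₁ hok.law hok.tim) (d.Hf i₁ a) 0 w)
      (fun ω => dil i₁ a (d.G ω)) r ω = u r ω := by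
    intro r ω
    have e1 : eval (pnt i₁ 0 0 (d.tw w ω)) (zoom i₁ w (d.T1 w ω) (d.G ω)) = d.g0 i₁ ω := by
      rw [eval_zoom]
      unfold g0
      have e2 : (fun j => if j = i₁ then (d.T1 w ω : ℝ) / 2 ^ w +
          pnt i₁ 0 0 (d.tw w ω) i₁ / 2 ^ w else pnt i₁ (0 : Fin m → ℝ) 0 (d.tw w ω) j) =
          pnt i₁ 0 0 (d.tm ω) := by
        funext j
        by_cases hj : j = i₁
        · rw [if_pos hj, hj, Pool.PTH.pnt_self, Pool.PTH.pnt_self, d.tm_tw w ω]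
        · rw [if_neg hj, Pool.PTH.pnt_ne i₁ _ hj, Pool.PTH.pnt_ne i₁ _ hj]
      rw [e2]
    have e3 : Rc (d.fam i₁ hok.law hok.tim) i₁ a w a K e
        (Pool.PTH.lab (d.fam i₁ hok.law hok.tim) (d.Hf i₁ a) 0 w) ω =
        rdp K e (zoom i₁ w (d.T1 w ω) (d.hl ω)) := by
      exact congrArg (rdp K e) (fam_lab hok.law hok.tim a w a ω)
    have e4 := fam_plb hok.law hok.tim a w a ω (d.G ω) (i₁ := i₁)
    have e6 : nub e i₁ (plb (d.fam i₁ hok.law hok.tim) i₁ a w a ω (dil i₁ a (d.G ω)))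
        (Rc (d.fam i₁ hok.law hok.tim) i₁ a w a K e
        (Pool.PTH.lab (d.fam i₁ hok.law hok.tim) (d.Hf i₁ a) 0 w) ω) (d.tw w ω) =
        2 ^ e * (d.g0 i₁ ω - rw' ω) := by
      refine (congrArg₂ (fun A B => nub e i₁ A B (d.tw w ω)) e4 e3).trans ?_
      unfold nub
      rw [e1, hrw']
    rw [hu]
    exact congrArg (fun y : ℝ => ⌊(2 : ℝ) ^ r * y⌋) e6
  -- the condition
  obtain ⟨V, hV⟩ : ∃ V : d.Om → ℤ × ((ℕ × ((Fin m →₀ ℕ) → ℤ)) × d.Ze) × (ℕ × d.Ze),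
      V = fun ω => (u (j * h) ω, d.cx i₁ w e ω, (d.T ω, d.E ω)) := ⟨_, rfl⟩
  have hVrw : ∀ ω ω', V ω = V ω' → rw' ω = rw' ω' := by
    intro ω ω' hv
    rw [hV] at hv
    simp only [Prod.mk.injEq] at hv
    obtain ⟨-, h1, h2, h3⟩ := hv
    unfold cx at h1
    simp only [Prod.mk.injEq] at h1
    obtain ⟨⟨h4, h5⟩, -⟩ := h1
    have h6 : d.tw w ω = d.tw w ω' := by
      unfold tw tm
      rw [h4, h2]
    rw [hrw']
    simp only
    rw [h6]
    unfold rdp
    rw [h5]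
  have hVW : ∀ ω ω', V ω = V ω' → (d.T ω, d.E ω) = (d.T ω', d.E ω') := by
    intro ω ω' hv
    rw [hV] at hv
    exact (Prod.ext_iff.1 (Prod.ext_iff.1 hv).2).2
  have hlog3 : ∀ (Y : d.Om → ℤ) (S : Type) (Z : d.Om → S),
      (∀ ω ω', 0 < q ω → 0 < q ω' → Z ω = Z ω' → |((Y ω - Y ω' : ℤ) : ℝ)| ≤ 1) →
      CH q Y Z ≤ Real.log 3 := by
    intro Y S Z hYZ
    have h1 := ch_fin hqlaw (fun ω (_ : Fin 1) => Y ω) Z 1 (fun ω ω' a b c _ =>
      hYZ ω ω' a b c)
    have h2 : CH q Y Z ≤ CH q (fun ω (_ : Fin 1) => Y ω) Z := by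
      refine CH_mono_left hq0 ?_
      intro ω ω' _ _ h
      exact congrFun (Prod.ext_iff.1 h).1 0
    rw [Fintype.card_fin] at h1
    have h3 : (2 : ℝ) * 1 + 1 = 3 := by norm_num
    rw [h3] at h1
    push_cast at h1
    linarith
  -- floors of shifted numbers
  have hfl : ∀ (x y s : ℝ), ⌊x⌋ = ⌊y⌋ → |((⌊x - s⌋ - ⌊y - s⌋ : ℤ) : ℝ)| ≤ 1 := by
    intro x y s hxy
    have a1 := Int.floor_le x
    have a2 := Int.lt_floor_add_one x
    have a3 := Int.floor_le y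
    have a4 := Int.lt_floor_add_one y
    have a5 := Int.floor_le (x - s)
    have a6 := Int.lt_floor_add_one (x - s)
    have a7 := Int.floor_le (y - s)
    have a8 := Int.lt_floor_add_one (y - s)
    have hxy' : ((⌊x⌋ : ℤ) : ℝ) = ((⌊y⌋ : ℤ) : ℝ) := by rw [hxy]
    have b1 : ⌊x - s⌋ - ⌊y - s⌋ < 2 := by
      have : ((⌊x - s⌋ - ⌊y - s⌋ : ℤ) : ℝ) < 2 := by
        push_cast
        linarith
      exact_mod_cast this
    have b2 : -2 < ⌊x - s⌋ - ⌊y - s⌋ := by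
      have : (-2 : ℝ) < ((⌊x - s⌋ - ⌊y - s⌋ : ℤ) : ℝ) := by
        push_cast
        linarith
      exact_mod_cast this
    rw [abs_le]
    constructor
    · have : (-1 : ℤ) ≤ ⌊x - s⌋ - ⌊y - s⌋ := by omega
      exact_mod_cast this
    · have : ⌊x - s⌋ - ⌊y - s⌋ ≤ 1 := by omega
      exact_mod_cast this
  have hug : ∀ r ω, u r ω = ⌊(2 : ℝ) ^ (e + r) * d.g0 i₁ ω - 2 ^ (e + r) * rw' ω⌋ := by
    intro r ω
    rw [hu]
    simp only
    congr 1
    rw [pow_add]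
    ring
  -- (1) the fine row of `u` from the fine row of `g`
  have s1 : CH q (u (j * h + h)) (fun ω => (g (j * h + h) ω, V ω)) ≤ Real.log 3 := by
    refine hlog3 _ _ _ ?_
    intro ω ω' _ _ hz
    have z1 := (Prod.ext_iff.1 hz).1
    have z2 := hVrw ω ω' (Prod.ext_iff.1 hz).2
    rw [hug, hug, z2]
    refine hfl _ _ _ ?_
    rw [hg] at z1
    exact z1
  -- (2) the coarse row of `g` from the coarse row of `u`
  have s2 : CH q (g (j * h)) V ≤ Real.log 3 := by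
    refine hlog3 _ _ _ ?_
    intro ω ω' _ _ hz
    have z2 := hVrw ω ω' hz
    have z1 : u (j * h) ω = u (j * h) ω' := by
      rw [hV] at hz
      exact (Prod.ext_iff.1 hz).1
    rw [hug, hug, z2] at z1
    have z3 := hfl _ _ (-(2 ^ (e + j * h) * rw' ω')) z1
    rw [hg]
    have e1 : ∀ y : ℝ, y - 2 ^ (e + j * h) * rw' ω' - -(2 ^ (e + j * h) * rw' ω') = y := by
      intro y
      ring
    rw [e1, e1] at z3
    exact z3
  -- (3) the static box from the context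
  have s3 : CH q (d.bx i₁ K e) V ≤ m * Real.log 7 + (mons m K).card *
      Real.log (2 * (C₁ * (C0 + (mons m K).card + 2 * (mons m K).card) + 1) + 1) := by
    have hnear : ∀ ω, B ω → NearB (d.fam i₁ hok.law hok.tim) i₁ a w a K e e
        (C0 + (mons m K).card + 2 * (mons m K).card) (fun ω => dil i₁ a (d.G ω))
        (Pool.PTH.lab (d.fam i₁ hok.law hok.tim) (d.Hf i₁ a) 0 w) ω := by
      intro ω hω
      exact Pool.PTH.near_coarse (by positivity) (fun s => Hf_deg hok _)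
        (near_fam hok (hBA ω hω))
    have h1 := hbx d.J (d.fam i₁ hok.law hok.tim) i₁ B a w a e e
      (C0 + (mons m K).card + 2 * (mons m K).card) (fun ω => dil i₁ a (d.G ω))
      (Pool.PTH.lab (d.fam i₁ hok.law hok.tim) (d.Hf i₁ a) 0 w) (by
        have h2 := hqlaw
        rw [hq] at h2
        exact h2) (by
          have := hok.hJ
          omega) (by omega) (by positivity)
      (fun ω _ => (totalDegree_dil_le _ _ _).trans (hok.degG ω)) hnear
    have h2 : CH q (d.bx i₁ K e) V ≤ CH q (SLP.bxs (d.fam i₁ hok.law hok.tim) i₁ a e K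
        (fun ω => dil i₁ a (d.G ω)) 0) (fun ω => (ctx (d.fam i₁ hok.law hok.tim) i₁ a w a e
          (Pool.PTH.lab (d.fam i₁ hok.law hok.tim) (d.Hf i₁ a) 0 w) ω,
          (d.fam i₁ hok.law hok.tim).W ω)) := by
      refine (CH_mono_left hq0 (X' := SLP.bxs (d.fam i₁ hok.law hok.tim) i₁ a e K
        (fun ω => dil i₁ a (d.G ω)) 0) ?_).trans (CH_mono_cond hq0 ?_)
      · intro ω ω' _ _ hz
        have z1 := (fam_bxs hok.law hok.tim a e K ω).symm.trans
          ((Prod.ext_iff.1 hz).1.trans (fam_bxs hok.law hok.tim a e K ω'))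
        exact Prod.ext (Prod.ext_iff.1 z1).1 (Prod.ext_iff.1 (Prod.ext_iff.1 z1).2).2
      · intro ω ω' _ _ hz
        rw [hV] at hz
        have z0 := Prod.ext_iff.1 (Prod.ext_iff.1 hz).2
        refine Prod.ext ?_ z0.2
        refine (fam_ctx hok.law hok.tim a w a e ω).trans (Eq.trans ?_
          (fam_ctx hok.law hok.tim a w a e ω').symm)
        have z1 : d.cx i₁ w e ω = d.cx i₁ w e ω' := z0.1
        have z2 := Prod.ext_iff.1 z1
        have z3 := Prod.ext_iff.1 z2.1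
        exact Prod.ext (Prod.ext (Prod.ext z3.1 rfl) z3.2) z2.2
    rw [hq] at h2 ⊢
    exact h2.trans h1
  -- (4) the rows
  have s4 : CH q (g (j * h + h)) (fun ω => (g (j * h) ω, d.bx i₁ K e ω)) ≤
      (1 - c) * h * Real.log 2 := by
    have h1 := hrow j hj B hBA hPB'
    rw [← hh, ← hq] at h1
    rw [hg]
    exact h1
  -- conclusion
  have t1 : CH q (u (j * h + h)) V ≤ CH q (g (j * h + h)) V + Real.log 3 := by
    have h1 := CH_le_add hq0 (u (j * h + h)) (g (j * h + h)) V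
    linarith
  have t2 : CH q (g (j * h + h)) V ≤ CH q (g (j * h)) V + CH q (d.bx i₁ K e) V +
      CH q (g (j * h + h)) (fun ω => (g (j * h) ω, d.bx i₁ K e ω)) := by
    have h1 := CH_le_add hq0 (g (j * h + h)) (g (j * h)) V
    have h2 := CH_le_add hq0 (g (j * h + h)) (d.bx i₁ K e) (fun ω => (g (j * h) ω, V ω))
    have h3 : CH q (d.bx i₁ K e) (fun ω => (g (j * h) ω, V ω)) ≤ CH q (d.bx i₁ K e) V :=
      CH_mono_cond hq0 (fun ω ω' _ _ hz => (Prod.ext_iff.1 hz).2)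
    have h4 : CH q (g (j * h + h)) (fun ω => (d.bx i₁ K e ω, (g (j * h) ω, V ω))) ≤
        CH q (g (j * h + h)) (fun ω => (g (j * h) ω, d.bx i₁ K e ω)) := by
      refine CH_mono_cond hq0 ?_
      intro ω ω' _ _ hz
      simp only [Prod.mk.injEq] at hz ⊢
      exact ⟨hz.2.1, hz.1⟩
    linarith
  have t3 : CH q (u (j * h + h)) V ≤ (1 - c / 2) * h * Real.log 2 := by
    have h1 : (1 - c) * (h : ℝ) * Real.log 2 + D ≤ (1 - c / 2) * h * Real.log 2 := by
      have h2 : (1 - c / 2) * (h : ℝ) * Real.log 2 = (1 - c) * h * Real.log 2 +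
          c / 2 * h * Real.log 2 := by ring
      rw [h2]
      linarith
    rw [hD] at h1
    linarith
  have hfin : CH q (Pool.PTH.unu (d.fam i₁ hok.law hok.tim) i₁ a w a K e
      (Pool.PTH.lab (d.fam i₁ hok.law hok.tim) (d.Hf i₁ a) 0 w)
      (fun ω => dil i₁ a (d.G ω)) (j * h + h))
      (fun ω => (Pool.PTH.unu (d.fam i₁ hok.law hok.tim) i₁ a w a K e
        (Pool.PTH.lab (d.fam i₁ hok.law hok.tim) (d.Hf i₁ a) 0 w)
        (fun ω => dil i₁ a (d.G ω)) (j * h) ω,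
        ctx (d.fam i₁ hok.law hok.tim) i₁ a w a e
          (Pool.PTH.lab (d.fam i₁ hok.law hok.tim) (d.Hf i₁ a) 0 w) ω,
        (d.fam i₁ hok.law hok.tim).W ω)) ≤ CH q (u (j * h + h)) V := by
    have e1 : Pool.PTH.unu (d.fam i₁ hok.law hok.tim) i₁ a w a K e
      (Pool.PTH.lab (d.fam i₁ hok.law hok.tim) (d.Hf i₁ a) 0 w)
      (fun ω => dil i₁ a (d.G ω)) (j * h + h) = u (j * h + h) := by
      funext ω
      exact hun _ ω
    rw [e1]
    refine CH_mono_cond hq0 ?_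
    intro ω ω' _ _ hz
    rw [hV]
    have z0 := Prod.ext_iff.1 hz
    have z1 := (hun (j * h) ω).symm.trans (z0.1.trans (hun (j * h) ω'))
    have z2 := Prod.ext_iff.1 z0.2
    have z3 := (fam_ctx hok.law hok.tim a w a e ω).symm.trans (z2.1.trans
      (fam_ctx hok.law hok.tim a w a e ω'))
    have z4 := Prod.ext_iff.1 z3
    have z5 := Prod.ext_iff.1 z4.1
    have z6 := Prod.ext_iff.1 z5.1
    exact Prod.ext z1 (Prod.ext (Prod.ext (Prod.ext z6.1 z5.2) z4.2) z2.2)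
  rw [hq] at hfin t3
  exact hfin.trans t3

end Dat

open Dat in
/-- **The path lemma.** -/
theorem path_thm : PathStmt := by
  classical
  intro k K C0 c ε hK hC0 hc hε
  have hCc : 0 ≤ C0 + ((mons (k + 1) K).card : ℝ) := by positivity
  obtain ⟨κ, π₀, δ, ι, D, X₀, hκ, hκ1, hπ, hδ, hι, hD, hpth⟩ := Pool.PTH.pth Pool.M5.n1 k K
    (C0 + (mons (k + 1) K).card) (c / 2) ε hK hCc (by positivity) hε
    (Pool.PTH.d1_thm _ _) (Pool.PTH.d3_thm _ _) (Pool.PTH.d4_thm _ _ _) (Pool.PTH.d5_thm _ _)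
    (Pool.PTH.d6_thm _ _) (Pool.PTH.d7_thm _ _) (Pool.PTH.d8_thm _ _) (Pool.PTH.df_thm _ _ _)
    Pool.PTH.alv_thm
  obtain ⟨X₁, hX₁⟩ := hfw_fam (k + 1) K C0 c κ hC0 hc hκ
  refine ⟨κ, π₀, δ, ι, D, X₀ + X₁, hκ, hκ1, hπ, hδ, hι, hD, ?_⟩
  intro d i₁ a e x hx hok htm hfr hrow
  have hsup : Pool.Agent.H49.Ent.cond d.p (fun ω => 0 < d.p ω) True = d.p := cond_sup hok.law
  have hp0 := hok.law.nonneg
  have hxK : x ≤ K * x := Nat.le_mul_of_pos_left _ hK
  obtain ⟨F, hF⟩ : ∃ F, F = d.fam i₁ hok.law hok.tim := ⟨_, rfl⟩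
  have hstr : Pool.PTH.Str (d.fam i₁ hok.law hok.tim) i₁ (fun ω => 0 < d.p ω) a 0 a K e (K * x)
      (fun ω => dil i₁ a (d.G ω)) (d.Hf i₁ a) (C0 + (mons (k + 1) K).card) (c / 2) κ π₀
      δ := by
    refine ⟨?_, Nat.zero_le _, by omega, hok.hJ, ?_, fun s => Hf_deg hok s, ?_, ?_, ?_, ?_⟩
    · have h1 : IsLaw (Pool.Agent.H49.Ent.cond d.p (fun ω => 0 < d.p ω) True) := by
        rw [hsup]
        exact hok.law
      exact h1
    · exact fun ω _ => (totalDegree_dil_le _ _ _).trans (hok.degG ω)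
    · exact fun w _ _ ω hω => near_fam hok hω
    · intro ω ω' hω hω' hl hW
      have h1 : d.L ω = d.L ω' := (fam_l hok.law hok.tim).1 hl
      have h2 : d.T ω = d.T ω' := (Prod.ext_iff.1 hW).1
      have h3 : d.E ω = d.E ω' := (Prod.ext_iff.1 hW).2
      exact congrArg (dil i₁ a) (hok.own ω ω' hω hω' h1 h3 h2)
    · have h1 : CH d.p (Sc (d.fam i₁ hok.law hok.tim) i₁ a e K (fun ω => dil i₁ a (d.G ω))
          (K * x)) (SLP.bxs (d.fam i₁ hok.law hok.tim) i₁ a e K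
            (fun ω => dil i₁ a (d.G ω)) 0) ≤ CH d.p (d.Sh i₁ K (e + K * x)) (d.bx i₁ K e) := by
        refine (CH_mono_left hp0 (X' := d.Sh i₁ K (e + K * x)) ?_).trans (CH_mono_cond hp0 ?_)
        · intro ω ω' _ _ hz
          have z1 : d.Sh i₁ K (e + K * x) ω = d.Sh i₁ K (e + K * x) ω' := (Prod.ext_iff.1 hz).1
          exact (fam_Sc hok.law hok.tim a e K (K * x) ω).trans (z1.trans
            (fam_Sc hok.law hok.tim a e K (K * x) ω').symm)
        · intro ω ω' _ _ hz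
          have z1 := (fam_bxs hok.law hok.tim a e K ω).symm.trans
            (Eq.trans hz (fam_bxs hok.law hok.tim a e K ω'))
          exact Prod.ext (Prod.ext_iff.1 z1).1 (Prod.ext_iff.1 (Prod.ext_iff.1 z1).2).2
      have h2 : δ * (x : ℝ) ≤ δ * ((K * x : ℕ) : ℝ) := by
        refine mul_le_mul_of_nonneg_left ?_ hδ.le
        exact_mod_cast hxK
      have h3 : CH (Pool.Agent.H49.Ent.cond d.p (fun ω => 0 < d.p ω) True)
          (Sc (d.fam i₁ hok.law hok.tim) i₁ a e K (fun ω => dil i₁ a (d.G ω))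
          (K * x)) (SLP.bxs (d.fam i₁ hok.law hok.tim) i₁ a e K
            (fun ω => dil i₁ a (d.G ω)) 0) ≤ δ * ((K * x : ℕ) : ℝ) := by
        rw [hsup]
        exact h1.trans (hfr.trans h2)
      exact h3
    · exact fun w _ hw => hX₁ d i₁ e (K * x) a π₀ hok (by omega) hπ hrow w hw
  have hT : (d.J : ℝ) * Real.log 2 - ι * x ≤ CH (Pool.Agent.H49.Ent.cond
      (d.fam i₁ hok.law hok.tim).p (fun ω => 0 < d.p ω) True) (d.fam i₁ hok.law hok.tim).T
      (fun ω => ((d.fam i₁ hok.law hok.tim).l ω, (d.fam i₁ hok.law hok.tim).Z ω)) := by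
    have h1 : CH d.p d.T (fun ω => (d.L ω, d.E ω)) ≤ CH d.p d.T
        (fun ω => ((d.fam i₁ hok.law hok.tim).l ω, (d.fam i₁ hok.law hok.tim).Z ω)) := by
      refine CH_mono_cond hp0 ?_
      intro ω ω' _ _ hz
      exact Prod.ext ((fam_l hok.law hok.tim).2 (Prod.ext_iff.1 hz).1) (Prod.ext_iff.1 hz).2
    have h2 : (d.J : ℝ) * Real.log 2 - ι * x ≤ CH (Pool.Agent.H49.Ent.cond d.p
        (fun ω => 0 < d.p ω) True) d.T
        (fun ω => ((d.fam i₁ hok.law hok.tim).l ω, (d.fam i₁ hok.law hok.tim).Z ω)) := by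
      rw [hsup]
      exact htm.trans h1
    exact h2
  have hmain := hpth d.J (d.fam i₁ hok.law hok.tim) i₁ (fun ω => 0 < d.p ω) a 0 a e x
    (d.Hf i₁ a) (fun ω => dil i₁ a (d.G ω)) (by omega) hstr hT
  have hmain' : CH d.p (ctx (d.fam i₁ hok.law hok.tim) i₁ a 0 a (e + K * x) (d.Hf i₁ a))
      (fun ω => (ctx (d.fam i₁ hok.law hok.tim) i₁ a a a (e + K * x)
        (Pool.PTH.lab (d.fam i₁ hok.law hok.tim) (d.Hf i₁ a) 0 a) ω,
        (d.fam i₁ hok.law hok.tim).W ω)) ≤ ε * ((a : ℝ) - (0 : ℕ)) + D * x := by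
    have h1 : CH (Pool.Agent.H49.Ent.cond d.p (fun ω => 0 < d.p ω) True)
        (ctx (d.fam i₁ hok.law hok.tim) i₁ a 0 a (e + K * x) (d.Hf i₁ a))
        (fun ω => (ctx (d.fam i₁ hok.law hok.tim) i₁ a a a (e + K * x)
        (Pool.PTH.lab (d.fam i₁ hok.law hok.tim) (d.Hf i₁ a) 0 a) ω,
        (d.fam i₁ hok.law hok.tim).W ω)) ≤ ε * ((a : ℝ) - (0 : ℕ)) + D * x := hmain
    rwa [hsup] at h1
  have hzoom : ∀ ω, zoom i₁ 0 (d.T1 0 ω) (d.hl ω) = d.hl ω := by
    intro ω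
    have h0 : d.T1 0 ω = 0 := by
      unfold T1
      rw [Nat.sub_zero]
      exact Nat.div_eq_of_lt (hok.tim ω)
    refine MvPolynomial.funext fun b => ?_
    rw [eval_zoom, h0]
    have h1 : (fun j => if j = i₁ then ((0 : ℕ) : ℝ) / 2 ^ 0 + b i₁ / 2 ^ 0 else b j) = b := by
      funext j
      by_cases hj : j = i₁
      · rw [if_pos hj, hj]
        simp
      · rw [if_neg hj]
    rw [h1]
  have hc0 : ∀ ω, ctx (d.fam i₁ hok.law hok.tim) i₁ a 0 a (e + K * x) (d.Hf i₁ a) ω =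
      (((d.T1 0 ω, (0, 0)), hz (e + K * x) (d.hl ω)), d.E ω) := by
    intro ω
    have h1 := (fam_ctx hok.law hok.tim a 0 a (e + K * x) ω (i₁ := i₁)).trans
      (congrArg (fun P => (((d.T1 0 ω, ((0 : Fin (k + 1) → ℤ), (0 : Fin (k + 1) → ℤ))),
        hz (e + K * x) P), d.E ω)) (hzoom ω))
    have h2 := Pool.PTH.lab_self (d.fam i₁ hok.law hok.tim) (d.Hf i₁ a) 0
    exact (congrArg (fun z => ctx (d.fam i₁ hok.law hok.tim) i₁ a 0 a (e + K * x) z ω)
      h2).symm.trans h1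
  have hfin : CH d.p (fun ω => (hz (e + K * x) (d.hl ω), d.E ω))
      (fun ω => (d.cx i₁ a (e + K * x) ω, (d.T ω, d.E ω))) ≤
      CH d.p (ctx (d.fam i₁ hok.law hok.tim) i₁ a 0 a (e + K * x) (d.Hf i₁ a))
      (fun ω => (ctx (d.fam i₁ hok.law hok.tim) i₁ a a a (e + K * x)
        (Pool.PTH.lab (d.fam i₁ hok.law hok.tim) (d.Hf i₁ a) 0 a) ω,
        (d.fam i₁ hok.law hok.tim).W ω)) := by
    refine (CH_mono_left hp0 (X' := ctx (d.fam i₁ hok.law hok.tim) i₁ a 0 a (e + K * x)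
      (d.Hf i₁ a)) ?_).trans (CH_mono_cond hp0 ?_)
    · intro ω ω' _ _ hz'
      have z1 := (hc0 ω).symm.trans ((Prod.ext_iff.1 hz').1.trans (hc0 ω'))
      have z2 := Prod.ext_iff.1 z1
      exact Prod.ext (Prod.ext_iff.1 z2.1).2 z2.2
    · intro ω ω' _ _ hz'
      have z0 := Prod.ext_iff.1 hz'
      refine Prod.ext ?_ z0.2
      refine (fam_ctx hok.law hok.tim a a a (e + K * x) ω).trans (Eq.trans ?_
        (fam_ctx hok.law hok.tim a a a (e + K * x) ω').symm)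
      have z1 : d.cx i₁ a (e + K * x) ω = d.cx i₁ a (e + K * x) ω' := z0.1
      have z2 := Prod.ext_iff.1 z1
      have z3 := Prod.ext_iff.1 z2.1
      exact Prod.ext (Prod.ext (Prod.ext z3.1 rfl) z3.2) z2.2
  rw [Nat.cast_zero, sub_zero] at hmain'
  exact hfin.trans hmain'

open Dat in
/-- **The path lemma, with static exactness.** -/
theorem pathY_thm : PathYStmt := by
  classical
  intro k K C0 c ε hK hC0 hc hε
  obtain ⟨κ, π₀, δ, ι, D, X₀, hκ, hκ1, hπ, hδ, hι, hD, hpth⟩ := path_thm k K C0 c ε hK hC0 hc hε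
  obtain ⟨C, hC, hcoef⟩ := Pool.SLO.coef_cube (k + 1) K
  obtain ⟨L, hL⟩ : ∃ L : ℝ, L = 2 * C * C0 := ⟨_, rfl⟩
  have hL0 : 0 ≤ L := by
    rw [hL]
    positivity
  have hlg : 0 ≤ Real.log (2 * (L + 1) + 1) := Real.log_nonneg (by linarith)
  refine ⟨κ, π₀, δ, ι, D + (mons (k + 1) K).card * Real.log (2 * (L + 1) + 1), X₀ + 1, hκ, hκ1,
    hπ, hδ, hι, by positivity, ?_⟩
  intro d i₁ a e x Υ Y Q hx hok htm hfr hrow hQ hY
  have hp0 := hok.law.nonneg
  have hmain := hpth d i₁ a e x (by omega) hok htm hfr hrow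
  have hx1 : (1 : ℝ) ≤ x := by
    have : 1 ≤ x := by omega
    exact_mod_cast this
  obtain ⟨P, hP⟩ : ∃ P, P = e + K * x := ⟨_, rfl⟩
  rw [← hP] at hmain hY ⊢
  have hPp : (0 : ℝ) < 2 ^ P := by positivity
  -- the label on the short window
  have hbox : CH d.p (d.cx i₁ a P) (fun ω => (Y ω, (d.T ω, d.E ω))) ≤
      (mons (k + 1) K).card * Real.log (2 * (L + 1) + 1) := by
    refine ch_mons hok.law (mons (k + 1) K) (fun ω => hz P (zoom i₁ a (d.T1 a ω) (d.hl ω)))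
      _ _ _ ?_ ?_
    · intro ω ω' hω hω' he al _
      simp only [Prod.mk.injEq] at he
      obtain ⟨e1, e2, e3⟩ := he
      have e4 : d.T1 a ω = d.T1 a ω' := by
        unfold T1
        rw [e2]
      have hd1 : (zoom i₁ a (d.T1 a ω) (d.hl ω)).totalDegree ≤ K :=
        (totalDegree_zoom_le _ _ _ _).trans (hok.degH _ _)
      have hd2 : (zoom i₁ a (d.T1 a ω') (d.hl ω')).totalDegree ≤ K :=
        (totalDegree_zoom_le _ _ _ _).trans (hok.degH _ _)
      have hne : ∀ ω, 0 < d.p ω → ∀ b : Fin (k + 1) → ℝ, (∀ j, 0 ≤ b j ∧ b j ≤ 1) →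
          |eval b (zoom i₁ a (d.T1 a ω) (Q (Y ω))) - eval b (zoom i₁ a (d.T1 a ω) (d.hl ω))| ≤
            C0 / 2 ^ P := by
        intro ω hω b hb
        rw [eval_zoom, eval_zoom]
        have ha0 : (0 : ℝ) < 2 ^ a := by positivity
        have hT1 : (d.T1 a ω : ℝ) + 1 ≤ 2 ^ a := by
          have h1 : d.T1 a ω < 2 ^ a := by
            unfold T1
            rw [Nat.div_lt_iff_lt_mul (by positivity), ← pow_add]
            have h2 := hok.tim ω
            have h3 := hok.hJ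
            have h4 : a + (d.J - a) = d.J := by omega
            rwa [h4]
          exact_mod_cast h1
        refine hY ω hω _ ?_ ?_ ?_
        · intro j
          by_cases hj : j = i₁
          · simp only [if_pos hj]
            have h1 : (d.T1 a ω : ℝ) / 2 ^ a + b i₁ / 2 ^ a = (d.T1 a ω + b i₁) / 2 ^ a := by
              ring
            rw [h1]
            refine ⟨div_nonneg (add_nonneg (Nat.cast_nonneg _) (hb i₁).1) ha0.le, ?_⟩
            rw [div_le_one ha0]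
            linarith [(hb i₁).2]
          · simp only [if_neg hj]
            exact hb j
        · simp only [if_true]
          have := div_nonneg (hb i₁).1 ha0.le
          linarith
        · simp only [if_true]
          have := div_le_div_of_nonneg_right (hb i₁).2 ha0.le
          have h1 : ((d.T1 a ω : ℝ) + 1) / 2 ^ a = (d.T1 a ω : ℝ) / 2 ^ a + 1 / 2 ^ a := by ring
          rw [h1]
          linarith
      have hcl : ∀ b : Fin (k + 1) → ℝ, (∀ j, 0 ≤ b j ∧ b j ≤ 1) →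
          |eval b (zoom i₁ a (d.T1 a ω) (d.hl ω) - zoom i₁ a (d.T1 a ω') (d.hl ω'))| ≤
            2 * C0 / 2 ^ P := by
        intro b hb
        have n1 := hne ω hω b hb
        have n2 := hne ω' hω' b hb
        rw [e1, e4] at n1
        rw [map_sub, e4]
        have h1 : 2 * C0 / 2 ^ P = C0 / 2 ^ P + C0 / 2 ^ P := by ring
        rw [h1]
        rw [abs_le] at n1 n2 ⊢
        constructor <;> linarith [n1.1, n1.2, n2.1, n2.2]
      have h3 := hcoef _ _ ((totalDegree_sub _ _).trans (max_le hd1 hd2)) hcl al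
      rw [coeff_sub] at h3
      unfold SLO.hz
      refine Pool.OCT.floor_diff (L := L) ?_
      rw [← mul_sub, abs_mul, abs_of_pos hPp]
      refine (mul_le_mul_of_nonneg_left h3 hPp.le).trans (le_of_eq ?_)
      rw [hL]
      field_simp
    · intro ω ω' hω hω' he hf
      simp only [Prod.mk.injEq] at he
      obtain ⟨e1, e2, e3⟩ := he
      have e4 : d.T1 a ω = d.T1 a ω' := by
        unfold T1
        rw [e2]
      refine Prod.ext (Prod.ext e4 ?_) e3
      funext al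
      by_cases hal : al ∈ mons (k + 1) K
      · exact hf al hal
      · have h0 : ∀ ω, coeff al (zoom i₁ a (d.T1 a ω) (d.hl ω)) = 0 := by
          intro ω
          by_contra hne
          exact hal (mem_mons.2 ((le_totalDegree (mem_support_iff.2 hne)).trans
            ((totalDegree_zoom_le _ _ _ _).trans (hok.degH _ _))))
        show ⌊(2 : ℝ) ^ P * coeff al (zoom i₁ a (d.T1 a ω) (d.hl ω))⌋ =
          ⌊(2 : ℝ) ^ P * coeff al (zoom i₁ a (d.T1 a ω') (d.hl ω'))⌋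
        rw [h0, h0]
  have h1 := CH_le_add hp0 (fun ω => (hz P (d.hl ω), d.E ω)) (d.cx i₁ a P)
    (fun ω => (Y ω, (d.T ω, d.E ω)))
  have h2 : CH d.p (fun ω => (hz P (d.hl ω), d.E ω))
      (fun ω => (d.cx i₁ a P ω, (Y ω, (d.T ω, d.E ω)))) ≤
      CH d.p (fun ω => (hz P (d.hl ω), d.E ω))
        (fun ω => (d.cx i₁ a P ω, (d.T ω, d.E ω))) := by
    refine CH_mono_cond hp0 ?_
    intro ω ω' _ _ hz'
    have z0 := Prod.ext_iff.1 hz'
    exact Prod.ext z0.1 (Prod.ext_iff.1 z0.2).2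
  have h3 : ((mons (k + 1) K).card : ℝ) * Real.log (2 * (L + 1) + 1) ≤
      (mons (k + 1) K).card * Real.log (2 * (L + 1) + 1) * x := by
    have : (0 : ℝ) ≤ (mons (k + 1) K).card * Real.log (2 * (L + 1) + 1) := by positivity
    nlinarith
  have h4 : (D + (mons (k + 1) K).card * Real.log (2 * (L + 1) + 1)) * (x : ℝ) =
      D * x + (mons (k + 1) K).card * Real.log (2 * (L + 1) + 1) * x := by ring
  rw [h4]
  linarith

end Pool.GPath
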